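import Pool.Agent.Y714.KF.Stm

set_option autoImplicit false
set_option linter.unusedSectionVars false

/-! Brackets vanish only on null sets (helper455). -/

namespace Pool.Agent.Y455.KF

open NumberField FractionalIdeal Module Finset ComplexConjugate MeasureTheory Filter Topology
open Pool.Agent.Y714.KF
open scoped nonZeroDivisors

section

variable {K : Type} [Field K] [NumberField K] {ι : Type} [Fintype ι] [DecidableEq ι]

/-- the real extension of an embedding as a linear map -/
noncomputable def sgL (b : Basis ι ℚ K) (σ : K →+* ℂ) : (ι → ℝ) →ₗ[ℝ] ℂ where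
  toFun := sg b σ
  map_add' := sg_add b σ
  map_smul' t x := by
    rw [sg_smul]
    simp

theorem sgL_apply (b : Basis ι ℚ K) (σ : K →+* ℂ) (x : ι → ℝ) : sgL b σ x = sg b σ x := rfl

theorem null_ker (L : (ι → ℝ) →ₗ[ℝ] ℂ) (x : ι → ℝ) (hx : L x ≠ 0) :
    (volume : Measure (ι → ℝ)) {y | L y = 0} = 0 := by
  have h := Measure.addHaar_submodule (volume : Measure (ι → ℝ)) (LinearMap.ker L) (by
    intro h
    apply hx
    have : x ∈ LinearMap.ker L := by rw [h]; trivial
    exact this)
  exact h

theorem brn : S_BRN K := by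
  intro b σ τ hστ
  classical
  let e := MeasurableEquiv.sumPiEquivProdPi (fun _ : Fin (finrank ℚ K) ⊕ Fin (finrank ℚ K) => ℝ)
  have he : MeasurePreserving e := volume_measurePreserving_sumPiEquivProdPi _
  let Z : Set ((Fin (finrank ℚ K) → ℝ) × (Fin (finrank ℚ K) → ℝ)) :=
    {p | br (rv b p.1 p.2 σ) (rv b p.1 p.2 τ) = 0}
  have hZc : IsClosed Z := by
    have h1 := continuous_sg b σ
    have h2 := continuous_sg b τ
    have h3 : Continuous fun p : (Fin (finrank ℚ K) → ℝ) × (Fin (finrank ℚ K) → ℝ) =>
        br (rv b p.1 p.2 σ) (rv b p.1 p.2 τ) := by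
      unfold br rv
      fun_prop
    exact isClosed_eq h3 continuous_const
  have hZ : {u : Fin (finrank ℚ K) ⊕ Fin (finrank ℚ K) → ℝ | br (rw2 b u σ) (rw2 b u τ) = 0}
      = e ⁻¹' Z := rfl
  rw [hZ, he.measure_preimage hZc.measurableSet.nullMeasurableSet, Measure.volume_eq_prod,
    Measure.measure_prod_null hZc.measurableSet]
  -- almost every `x`
  have h1 : ∀ᵐ x : Fin (finrank ℚ K) → ℝ, sg b σ x ≠ 0 := by
    rw [ae_iff]
    simp only [not_not]
    refine null_ker (sgL b σ) (rc b 1) ?_
    rw [sgL_apply, sg_rc, map_one]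
    exact one_ne_zero
  filter_upwards [h1] with x hx
  -- the linear map
  let L : (Fin (finrank ℚ K) → ℝ) →ₗ[ℝ] ℂ :=
    (sg b σ x) • sgL b τ - (sg b τ x) • sgL b σ
  have hL : ∀ y, L y = br (rv b x y σ) (rv b x y τ) := by
    intro y
    show sg b σ x * sg b τ y - sg b τ x * sg b σ y = sg b σ x * sg b τ y - sg b σ y * sg b τ x
    ring
  have hne : ∃ y, L y ≠ 0 := by
    by_contra hcon
    push Not at hcon
    have e1 : sg b σ x = sg b τ x := by
      have h := hcon (rc b 1)
      rw [hL] at h
      simp only [br, rv, sg_rc, map_one] at h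
      linear_combination h
    apply hστ
    ext θ
    have h := hcon (rc b θ)
    rw [hL] at h
    simp only [br, rv, sg_rc] at h
    rw [← e1] at h
    have h2 : sg b σ x * (τ θ - σ θ) = 0 := by linear_combination h
    rcases mul_eq_zero.1 h2 with h3 | h3
    · exact absurd h3 hx
    · exact (sub_eq_zero.1 h3).symm
  obtain ⟨y, hy⟩ := hne
  have := null_ker L y hy
  simp only [hL] at this
  exact this

end

end Pool.Agent.Y455.KF
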