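import Pool.Agent.Y714.KF.Stm

set_option autoImplicit false
set_option linter.unusedSectionVars false

/-! Continuity of the unit coordinates; the regions are open and bounded (helper455). -/

namespace Pool.Agent.Y455.KF

open NumberField FractionalIdeal Module Finset ComplexConjugate MeasureTheory Filter Topology
open NumberField.Units NumberField.Units.dirichletUnitTheorem NumberField.InfinitePlace
open Pool.Agent.Y714.KF
open scoped nonZeroDivisors

section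

variable {K : Type} [Field K] [NumberField K] {ι : Type} [Fintype ι] [DecidableEq ι]

/-- the set where all brackets are nonzero -/
def UU (b : Basis ι ℚ K) : Set (ι ⊕ ι → ℝ) :=
  {u | ∀ σ τ : K →+* ℂ, σ ≠ τ → br (rw2 b u σ) (rw2 b u τ) ≠ 0}

theorem continuous_rw2 (b : Basis ι ℚ K) : Continuous (rw2 b) := by
  unfold rw2 rv
  refine continuous_pi fun σ => ?_
  have h := continuous_sg b σ
  fun_prop

theorem UU_open (b : Basis ι ℚ K) : IsOpen (UU b) := by
  classical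
  have h : UU b = ⋂ σ : K →+* ℂ, ⋂ τ : K →+* ℂ,
      {u | σ ≠ τ → br (rw2 b u σ) (rw2 b u τ) ≠ 0} := by
    ext u
    simp [UU]
  rw [h]
  refine isOpen_iInter_of_finite fun σ => isOpen_iInter_of_finite fun τ => ?_
  by_cases hst : σ = τ
  · simp [hst]
  · have h1 : Continuous fun u => br (rw2 b u σ) (rw2 b u τ) := by
      have h2 := continuous_rw2 b
      have h3 : Continuous fun u => rw2 b u σ := (continuous_apply σ).comp h2
      have h4 : Continuous fun u => rw2 b u τ := (continuous_apply τ).comp h2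
      exact continuous_br.comp (h3.prodMk h4)
    have h5 : {u : ι ⊕ ι → ℝ | σ ≠ τ → br (rw2 b u σ) (rw2 b u τ) ≠ 0}
        = {u | br (rw2 b u σ) (rw2 b u τ) ≠ 0} := by
      ext u
      simp [hst]
    rw [h5]
    exact isOpen_ne_fun h1 continuous_const

theorem UU_pm (hn : 3 ≤ finrank ℚ K) (b : Basis ι ℚ K) {u : ι ⊕ ι → ℝ} (hu : u ∈ UU b) :
    0 < pm (rw2 b u) :=
  pm_pos (by rw [card_emb]; omega) fun σ τ h => hu σ τ h

theorem UU_ext (hodd : Odd (finrank ℚ K)) (hn : 3 ≤ finrank ℚ K) (b : Basis ι ℚ K)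
    {u : ι ⊕ ι → ℝ} (hu : u ∈ UU b) (σ : K →+* ℂ) : 0 < pm (ext (rw2 b u) σ) := by
  obtain ⟨C, _, hC⟩ := ineqs (J := K →+* ℂ) (by rw [card_emb]; exact hodd)
  exact (hC _ (UU_pm hn b hu)).1 σ

theorem cont_Lg (hodd : Odd (finrank ℚ K)) (hn : 3 ≤ finrank ℚ K) (b : Basis ι ℚ K)
    (σ : K →+* ℂ) : ContinuousOn (fun u => Lg (rw2 b u) σ) (UU b) := by
  unfold Lg
  refine continuousOn_const.mul (ContinuousOn.sub ?_ ?_)
  · refine ContinuousOn.log (((continuous_ext σ).comp (continuous_rw2 b)).continuousOn) ?_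
    intro u hu
    exact (UU_ext hodd hn b hu σ).ne'
  · refine ContinuousOn.log ((continuous_pm.comp (continuous_rw2 b)).continuousOn) ?_
    intro u hu
    exact (UU_pm hn b hu).ne'

theorem cont_cc (hodd : Odd (finrank ℚ K)) (hn : 3 ≤ finrank ℚ K) (b : Basis ι ℚ K)
    (j : Fin (Units.rank K)) : ContinuousOn (fun u => cc (rw2 b u) j) (UU b) := by
  classical
  have h1 : ContinuousOn (fun u => mLg (rw2 b u)) (UU b) := by
    unfold mLg
    exact (continuousOn_finsetSum _ fun σ _ => cont_Lg hodd hn b σ).div_const _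
  have h2 : ContinuousOn (fun u => lgv (rw2 b u)) (UU b) := by
    unfold lgv
    refine continuousOn_pi.2 fun w => ?_
    exact continuousOn_const.mul ((cont_Lg hodd hn b _).sub h1)
  have h3 : Continuous ((ubas K).coord j) := LinearMap.continuous_of_finiteDimensional _
  exact h3.comp_continuousOn h2

end

section

variable {K : Type} [Field K] [NumberField K]

theorem ccc : S_CCC K := by
  intro hodd hn b j
  exact cont_cc hodd hn b j

theorem continuous_bf {ι : Type} [Fintype ι] [DecidableEq ι] (b : Basis ι ℚ K) :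
    Continuous fun p : (ι → ℝ) × (ι → ℝ) => bf b p.1 p.2 := by
  unfold bf
  refine continuous_finsetSum _ fun σ _ => ?_
  have h := continuous_sg b σ
  have h1 : Continuous fun p : (ι → ℝ) × (ι → ℝ) => sg b σ p.1 := h.comp continuous_fst
  have h2 : Continuous fun p : (ι → ℝ) × (ι → ℝ) => sg b σ p.2 := h.comp continuous_snd
  exact Complex.continuous_re.comp (h1.mul (Complex.continuous_conj.comp h2))

theorem cont_bf2 {ι : Type} [Fintype ι] [DecidableEq ι] {X : Type} [TopologicalSpace X]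
    (b : Basis ι ℚ K) {f g : X → (ι → ℝ)} (hf : Continuous f) (hg : Continuous g) :
    Continuous fun u => bf b (f u) (g u) := by
  have h := (continuous_bf b).comp (hf.prodMk hg)
  exact h

theorem c_inl {ι : Type} : Continuous fun u : ι ⊕ ι → ℝ => fun i => u (Sum.inl i) :=
  continuous_pi fun _ => continuous_apply _

theorem c_inr {ι : Type} : Continuous fun u : ι ⊕ ι → ℝ => fun i => u (Sum.inr i) :=
  continuous_pi fun _ => continuous_apply _

theorem c11 {ι : Type} [Fintype ι] [DecidableEq ι] (b : Basis ι ℚ K) :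
    Continuous fun u : ι ⊕ ι → ℝ => bf b (fun i => u (Sum.inl i)) (fun i => u (Sum.inl i)) :=
  cont_bf2 b c_inl c_inl

theorem c12 {ι : Type} [Fintype ι] [DecidableEq ι] (b : Basis ι ℚ K) :
    Continuous fun u : ι ⊕ ι → ℝ => bf b (fun i => u (Sum.inl i)) (fun i => u (Sum.inr i)) :=
  cont_bf2 b c_inl c_inr

theorem c22 {ι : Type} [Fintype ι] [DecidableEq ι] (b : Basis ι ℚ K) :
    Continuous fun u : ι ⊕ ι → ℝ => bf b (fun i => u (Sum.inr i)) (fun i => u (Sum.inr i)) :=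
  cont_bf2 b c_inr c_inr

theorem cpm {ι : Type} [Fintype ι] [DecidableEq ι] (b : Basis ι ℚ K) :
    Continuous fun u : ι ⊕ ι → ℝ => pm (rw2 b u) :=
  continuous_pm.comp (continuous_rw2 b)

theorem Dm_open {ι : Type} [Fintype ι] [DecidableEq ι] (b : Basis ι ℚ K)
    (κ : Fin (Units.rank K) → ℝ) (δ : ℝ)
    (h : ∀ j, ContinuousOn (fun u : ι ⊕ ι → ℝ => cc (rw2 b u) j) (UU b)) : IsOpen (Dm b κ δ) := by
  have hU := UU_open b
  have o1 : IsOpen {u : ι ⊕ ι → ℝ | δ ^ 2 < bf b (fun i => u (Sum.inl i)) (fun i => u (Sum.inl i))} :=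
    isOpen_lt continuous_const (c11 b)
  have o2 : IsOpen {u : ι ⊕ ι → ℝ | bf b (fun i => u (Sum.inl i)) (fun i => u (Sum.inl i)) <
      bf b (fun i => u (Sum.inr i)) (fun i => u (Sum.inr i))} := isOpen_lt (c11 b) (c22 b)
  have o3 : IsOpen {u : ι ⊕ ι → ℝ | 0 < bf b (fun i => u (Sum.inl i)) (fun i => u (Sum.inr i))} :=
    isOpen_lt continuous_const (c12 b)
  have o4 : IsOpen {u : ι ⊕ ι → ℝ | 2 * bf b (fun i => u (Sum.inl i)) (fun i => u (Sum.inr i)) <
      bf b (fun i => u (Sum.inl i)) (fun i => u (Sum.inl i))} :=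
    isOpen_lt (continuous_const.mul (c12 b)) (c11 b)
  have o5 : IsOpen {u : ι ⊕ ι → ℝ | pm (rw2 b u) < 1} := isOpen_lt (cpm b) continuous_const
  have o6 : IsOpen (UU b ∩ ⋂ j, UU b ∩
      (fun u => cc (rw2 b u) j) ⁻¹' (Set.Ioo (κ j) (κ j + 1))) := by
    refine hU.inter (isOpen_iInter_of_finite fun j => ?_)
    exact (h j).isOpen_inter_preimage hU isOpen_Ioo
  have o := (((o1.inter o2).inter o3).inter o4).inter (o5.inter o6)
  have hD : Dm b κ δ = ((({u : ι ⊕ ι → ℝ | δ ^ 2 < bf b (fun i => u (Sum.inl i))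
      (fun i => u (Sum.inl i))} ∩
      {u : ι ⊕ ι → ℝ | bf b (fun i => u (Sum.inl i)) (fun i => u (Sum.inl i)) <
        bf b (fun i => u (Sum.inr i)) (fun i => u (Sum.inr i))}) ∩
      {u : ι ⊕ ι → ℝ | 0 < bf b (fun i => u (Sum.inl i)) (fun i => u (Sum.inr i))}) ∩
      {u : ι ⊕ ι → ℝ | 2 * bf b (fun i => u (Sum.inl i)) (fun i => u (Sum.inr i)) <
        bf b (fun i => u (Sum.inl i)) (fun i => u (Sum.inl i))}) ∩
      ({u : ι ⊕ ι → ℝ | pm (rw2 b u) < 1} ∩ (UU b ∩ ⋂ j, UU b ∩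
        (fun u => cc (rw2 b u) j) ⁻¹' (Set.Ioo (κ j) (κ j + 1)))) := by
    ext u
    constructor
    · intro hu
      exact ⟨⟨⟨⟨hu.1, hu.2.1⟩, hu.2.2.1⟩, hu.2.2.2.1⟩, hu.2.2.2.2.2.1, hu.2.2.2.2.1,
        Set.mem_iInter.2 fun j => ⟨hu.2.2.2.2.1, hu.2.2.2.2.2.2 j⟩⟩
    · intro hu
      exact ⟨hu.1.1.1.1, hu.1.1.1.2, hu.1.1.2, hu.1.2, hu.2.2.1, hu.2.1,
        fun j => (Set.mem_iInter.1 hu.2.2.2 j).2⟩
  rw [hD]
  exact o

/-- the estimate for one point -/
theorem Dc_bd {ι : Type} [Fintype ι] [DecidableEq ι] (hodd : Odd (finrank ℚ K))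
    (hn : 3 ≤ finrank ℚ K) (b : Basis ι ℚ K)
    (κ : Fin (Units.rank K) → ℝ) : ∃ E : ℝ, 0 ≤ E ∧ ∀ (δ : ℝ), ∀ u ∈ Dc b κ δ,
      bf b (fun i => u (Sum.inl i)) (fun i => u (Sum.inl i)) *
        bf b (fun i => u (Sum.inr i)) (fun i => u (Sum.inr i)) ≤ E := by
  obtain ⟨C, hC, hbr⟩ := exists_br_bound (K := K) hodd (∑ j, |κ j| + 1)
  have hn0 : finrank ℚ K ≠ 0 := by omega
  refine ⟨(finrank ℚ K : ℝ) ^ 2 * (C + 1) ^ 2, by positivity, fun δ u hu => ?_⟩
  obtain ⟨h1, h2, h3, h4, h5, h6, h7⟩ := hu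
  have hpm := UU_pm hn b (u := u) h5
  have h8 : ∀ σ τ : K →+* ℂ, ‖br (rw2 b u σ) (rw2 b u τ)‖ ≤ C + 1 := by
    intro σ τ
    have g1 := hbr (rw2 b u) (sym_rv b _ _) hpm (fun j => by
      have g3 : |κ j| ≤ ∑ j, |κ j| := single_le_sum (f := fun j => |κ j|)
        (fun _ _ => abs_nonneg _) (mem_univ j)
      obtain ⟨g4, g5⟩ := h7 j
      rw [abs_le]
      constructor
      · linarith [neg_abs_le (κ j)]
      · linarith [le_abs_self (κ j)]) σ τ
    have g2 : ‖br (rw2 b u σ) (rw2 b u τ)‖ ^ finrank ℚ K ≤ (C + 1) ^ finrank ℚ K := by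
      refine g1.trans ?_
      have g3 : C * pm (rw2 b u) ≤ C * 1 := mul_le_mul_of_nonneg_left h6 hC.le
      have g4 : (C + 1) ^ 1 ≤ (C + 1) ^ finrank ℚ K := pow_le_pow_right₀ (by linarith) (by omega)
      rw [pow_one] at g4
      linarith
    exact (pow_le_pow_iff_left₀ (norm_nonneg _) (by positivity) hn0).1 g2
  have h9 := lagrange b (fun i => u (Sum.inl i)) (fun i => u (Sum.inr i))
  have h10 : ∑ σ : K →+* ℂ, ∑ τ : K →+* ℂ, ‖br (rw2 b u σ) (rw2 b u τ)‖ ^ 2 ≤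
      (finrank ℚ K : ℝ) ^ 2 * (C + 1) ^ 2 := by
    calc ∑ σ : K →+* ℂ, ∑ τ : K →+* ℂ, ‖br (rw2 b u σ) (rw2 b u τ)‖ ^ 2 ≤
        ∑ σ : K →+* ℂ, ∑ τ : K →+* ℂ, (C + 1) ^ 2 :=
          sum_le_sum fun σ _ => sum_le_sum fun τ _ => pow_le_pow_left₀ (norm_nonneg _) (h8 σ τ) 2
      _ = _ := by
          rw [sum_const, sum_const, card_univ, card_emb, nsmul_eq_mul, nsmul_eq_mul]
          ring
  have h11 : 2 * (bf b (fun i => u (Sum.inl i)) (fun i => u (Sum.inl i)) *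
      bf b (fun i => u (Sum.inr i)) (fun i => u (Sum.inr i)) -
      bf b (fun i => u (Sum.inl i)) (fun i => u (Sum.inr i)) ^ 2) ≤
      (finrank ℚ K : ℝ) ^ 2 * (C + 1) ^ 2 := by
    rw [h9]
    exact h10
  have hA0 : 0 ≤ bf b (fun i => u (Sum.inl i)) (fun i => u (Sum.inl i)) := bf_self_nonneg b _
  revert h11 hA0 h3 h4 h2
  generalize bf b (fun i => u (Sum.inl i)) (fun i => u (Sum.inl i)) = A
  generalize bf b (fun i => u (Sum.inr i)) (fun i => u (Sum.inr i)) = B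
  generalize bf b (fun i => u (Sum.inl i)) (fun i => u (Sum.inr i)) = S
  intro h2 h3 h4 h11 hA0
  have g1 : 4 * S ^ 2 ≤ A * B := by nlinarith
  nlinarith

theorem Dc_bounded {ι : Type} [Fintype ι] [DecidableEq ι] (hodd : Odd (finrank ℚ K))
    (hn : 3 ≤ finrank ℚ K) (b : Basis ι ℚ K)
    (κ : Fin (Units.rank K) → ℝ) (δ : ℝ) (hδ : 0 < δ) : Bornology.IsBounded (Dc b κ δ) := by
  obtain ⟨E0, hE00, hE1⟩ := Dc_bd hodd hn b κ
  obtain ⟨c, C2, hc, hC2, hbf⟩ := exists_bf_bound b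
  rw [isBounded_iff_forall_norm_le]
  obtain ⟨E, hE⟩ : ∃ E, E = E0 / δ ^ 2 := ⟨_, rfl⟩
  have hE0 : 0 ≤ E := by rw [hE]; positivity
  refine ⟨Real.sqrt (E / c), fun u hu => ?_⟩
  have hAB := hE1 δ u hu
  have h1 := hu.1
  have h2 := hu.2.1
  have hA0 : 0 ≤ bf b (fun i => u (Sum.inl i)) (fun i => u (Sum.inl i)) := bf_self_nonneg b _
  have g3 : bf b (fun i => u (Sum.inr i)) (fun i => u (Sum.inr i)) ≤ E := by
    rw [hE, le_div_iff₀ (by positivity)]
    have := mul_le_mul_of_nonneg_left h1 (hA0.trans h2)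
    linarith
  have hx : ‖fun i => u (Sum.inl i)‖ ≤ Real.sqrt (E / c) := by
    apply Real.le_sqrt_of_sq_le
    rw [le_div_iff₀ hc]
    have := (hbf (fun i => u (Sum.inl i))).1
    linarith
  have hy : ‖fun i => u (Sum.inr i)‖ ≤ Real.sqrt (E / c) := by
    apply Real.le_sqrt_of_sq_le
    rw [le_div_iff₀ hc]
    have := (hbf (fun i => u (Sum.inr i))).1
    linarith
  rw [pi_norm_le_iff_of_nonneg (Real.sqrt_nonneg _)]
  rintro (i | i)
  · exact (norm_le_pi_norm (fun i => u (Sum.inl i)) i).trans hx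
  · exact (norm_le_pi_norm (fun i => u (Sum.inr i)) i).trans hy

theorem opb (h : S_CCC K) : S_OPB K := by
  intro hodd hn b κ δ hδ
  exact ⟨Dm_open b κ δ fun j => h hodd hn b j, Dc_bounded hodd hn b κ δ hδ⟩

end

end Pool.Agent.Y455.KF
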